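import Pool.Agent.LSB.TopF
import Pool.Agent.LSB.TopG1
import Pool.Agent.LSB.TopG2
import Pool.Agent.LSB.TopG3

/-!
# The local strong Birkhoff conjecture near every ellipse

Let `E` be an ellipse with semi-axes `a > b > 0` (any eccentricity in `(0,1)`) and `q₀ ≥ 2`.  Every
`q₀`-rationally integrable billiard table whose boundary is sufficiently `C^32`-close to `E` is an
ellipse.  The order of differentiability `32` does not depend on `q₀` or on `E`.
-/

namespace Pool.Agent.Results.MP_33aab0_an.EveryEllipse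

open LSB Real

theorem result : ∀ a b : ℝ, 0 < b → b < a → ∀ q₀ : ℕ, 2 ≤ q₀ →
    ∃ ε : ℝ, 0 < ε ∧ ∀ γ : ℝ → ℂ, ContDiff ℝ 32 γ → (∀ t, γ (t + 2 * π) = γ t) →
      (∀ k : ℕ, k ≤ 32 → ∀ t, ‖iteratedDeriv k (fun s => γ s - ellipseCurve a b s) t‖ ≤ ε) →
      IsRationallyIntegrable q₀ γ → IsEllipse (Set.range γ) := by
  intro a b hb hab q₀ _
  obtain ⟨ε₀, hε₀, K, hK⟩ := exists_supp hb hab 30 (by norm_num)
  obtain ⟨ε₁, hε₁, hfin⟩ := final_supp hb hab q₀ K
  refine ⟨min ε₀ ε₁, lt_min hε₀ hε₁, ?_⟩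
  intro γ hγ hper hclose hint
  obtain ⟨h, τ, hsupp, hsm, hbd, hnear, hτ, hτ', hτp, hγτ⟩ :=
    hK (min ε₀ ε₁) (lt_min hε₀ hε₁) (min_le_left _ _) γ (by exact_mod_cast hγ) hper
      (fun k hk t => hclose k (by omega) t)
  obtain ⟨a', b', τ', v, w, hb', hab', hh⟩ := hfin h hsupp (by exact_mod_cast hsm)
    hbd (fun ψ => (hnear ψ).trans (min_le_right _ _))
    (fun p q hp hpq hq => by
      obtain ⟨Kc, hKc⟩ := hint p q hp hpq hq
      exact pcaustic_of_caustic hsupp hτ hτ' hτp hγτ hKc)
  have hell := isEllipse_of_supp hb' hab' hh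
  have hrange : Set.range γ = Set.range (supCurve h) := by
    have hcont : Continuous τ := hτ.continuous
    have hmono : StrictMono τ := strictMono_of_deriv_pos hτ'
    have hsurj : Function.Surjective τ := by
      have hn : ∀ (n : ℕ) (t : ℝ), τ (t + 2 * π * n) = τ t + 2 * π * n := by
        intro n
        induction n with
        | zero => intro t; simp
        | succ n ih =>
          intro t
          have e : t + 2 * π * ((n + 1 : ℕ) : ℝ) = (t + 2 * π * n) + 2 * π := by push_cast; ring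
          rw [e, hτp, ih]; push_cast; ring
      have hn' : ∀ (n : ℕ), τ (-(2 * π * n)) = τ 0 - 2 * π * n := by
        intro n
        have := hn n (-(2 * π * n))
        rw [neg_add_cancel] at this
        linarith
      intro y
      have hpi : 0 < 2 * π := by positivity
      obtain ⟨n, hn1⟩ := exists_nat_gt (|y - τ 0| / (2 * π))
      have hn2 : |y - τ 0| < 2 * π * n := by
        rw [div_lt_iff₀ hpi] at hn1
        linarith
      have hlo : τ (-(2 * π * n)) ≤ y := by
        rw [hn']; linarith [(abs_lt.1 hn2).1]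
      have hhi : y ≤ τ (0 + 2 * π * n) := by
        rw [hn]; linarith [(abs_lt.1 hn2).2]
      have hle : -(2 * π * n) ≤ 0 + 2 * π * n := by
        have : 0 ≤ 2 * π * n := by positivity
        linarith
      obtain ⟨x, _, hx⟩ := intermediate_value_Icc hle hcont.continuousOn ⟨hlo, hhi⟩
      exact ⟨x, hx⟩
    ext z
    constructor
    · rintro ⟨t, rfl⟩
      exact ⟨τ t, (hγτ t).symm⟩
    · rintro ⟨ψ, rfl⟩
      obtain ⟨t, rfl⟩ := hsurj ψ
      exact ⟨t, hγτ t⟩
  rw [hrange]
  exact hell

end Pool.Agent.Results.MP_33aab0_an.EveryEllipse
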